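import Pool.Agent.H38.DP.Bridge

/-!
# Andrews' problem on difference-condition partitions: finitely many solutions

For every modulus `M` there are only finitely many triples `(R, b, C)` such that partitions
into distinct parts from the classes `R` modulo `M` are equinumerous with partitions with
parts outside the finite set `C` and gaps `b`.
-/

namespace Pool.Agent.Results.MP_f65d86_nt.FinitelyMany

open Pool.Agent.H38.DP

/-- For every modulus `M ≥ 1` the set of solutions is finite. -/
theorem result (M : ℕ) (hM : 0 < M) :
    {p : Finset (ZMod M) × (ZMod M → ℕ) × Finset ℕ |
      IsSolution M p.1 p.2.1 p.2.2}.Finite :=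
  finite_solutions hM

end Pool.Agent.Results.MP_f65d86_nt.FinitelyMany
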