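import Pool.Agent.H38.DO.Main

/-!
# Andrews' problem on difference-condition partitions: at most one missing class

For every modulus `M` the complete list of the triples `(R, b, C)`, where `R` contains at
least `M - 1` of the `M` residue classes, such that partitions into distinct parts from the
classes `R` are equinumerous with partitions with parts outside the finite set `C` and
gaps `b`.
-/

namespace Pool.Agent.Results.MP_f65d86_nt.OmitOne

open Pool.Agent.H38.DP Pool.Agent.H38.DO

/-- For every modulus `M`, the solutions with `|R| ≥ M - 1` are exactly the listed ones. -/
theorem result (M : ℕ) (hM : 1 ≤ M) (R : Finset (ZMod M)) (hR : M ≤ R.card + 1)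
    (b : ZMod M → ℕ) (C : Finset ℕ) : IsSolution M R b C ↔ Listed1 M R b C :=
  classification1 hM R hR b C

end Pool.Agent.Results.MP_f65d86_nt.OmitOne
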