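import Pool.Agent.H38.DP.Classify

/-!
# Andrews' problem on difference-condition partitions: the moduli 1, 2, 3, 4, 5

The complete list of triples `(R, b, C)` such that partitions into distinct parts from the
classes `R` modulo `M` are equinumerous with partitions with parts outside the finite set
`C` and gaps `b`, for every modulus `M ≤ 5`.
-/

namespace Pool.Agent.Results.MP_f65d86_nt.SmallModuli

open Pool.Agent.H38.DP

/-- For a modulus `1 ≤ M ≤ 5` the solutions are exactly the listed ones. -/
theorem result (M : ℕ) (hM : 1 ≤ M) (hM5 : M ≤ 5) (R : Finset (ZMod M))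
    (b : ZMod M → ℕ) (C : Finset ℕ) : IsSolution M R b C ↔ IsListed M R b C :=
  classification hM hM5 R b C

end Pool.Agent.Results.MP_f65d86_nt.SmallModuli
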