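import Pool.Agent.H38.DP.SwapT

/-!
# Andrews' problem on difference-condition partitions: a swap principle

If two adjacent classes `j`, `j + 1` have the gaps `k`, `k + 1` with `k` a multiple of the
modulus, and no other class reaches the class `j` by its gap, then the gaps may be changed
into `k - 1`, `k + 2` without changing the number of partitions.
-/

namespace Pool.Agent.Results.MP_f65d86_nt.SwapPrinciple

open Pool.Agent.H38.DP

/-- The swap principle: the counting function does not change, and the new triple is a
solution if and only if the old one is. -/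
theorem result (M : ℕ) (b : ZMod M → ℕ) (C : Finset ℕ) (j : ZMod M) (hb : ∀ i, 0 < b i)
    (h1 : b (j + 1) = b j + 1) (h2 : M ∣ b j)
    (h3 : ∀ u, u ≠ j → u ≠ j + 1 → u - (b u : ZMod M) ≠ j)
    (h4 : ∀ x : ℕ, 0 < x → (x : ZMod M) = j → (x ∈ C ↔ x + 1 ∈ C)) :
    (∀ n, countB M (swapGap b j) (swapExc b j C) n = countB M b C n) ∧
      ∀ R : Finset (ZMod M),
        IsSolution M R (swapGap b j) (swapExc b j C) ↔ IsSolution M R b C :=
  swap_principle b C j hb h1 h2 h3 h4

end Pool.Agent.Results.MP_f65d86_nt.SwapPrinciple
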